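import Mathlib
import Pool.Agent.Y755.FK.Stm

/-!
Project FK (MP_5d10af_nt): convergent Euler products.
-/

set_option autoImplicit false

open Filter Topology

namespace Pool.Agent.Y469.FK

open Pool.Agent.Y755.FK

theorem t_EP : S_EP := by
  intro M
  have hsum : Summable fun p : Nat.Primes => ((p : ℕ) : ℝ) ^ (-(3 / 2) : ℝ) :=
    Nat.Primes.summable_rpow.2 (by norm_num)
  have hu : Summable fun p : Nat.Primes => M * ((p : ℕ) : ℝ) ^ (-(3 / 2) : ℝ) := hsum.mul_left M
  refine ⟨Real.exp (∑' p : Nat.Primes, M * ((p : ℕ) : ℝ) ^ (-(3 / 2) : ℝ)), fun v hv => ?_⟩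
  have hK : IsOpen {s : ℂ | 3 / 4 < s.re} := isOpen_lt continuous_const Complex.continuous_re
  have hloc := Summable.hasProdLocallyUniformlyOn_one_add (R := ℂ)
    (f := fun (p : Nat.Primes) (s : ℂ) => v p s) hK hu
    (Eventually.of_forall fun p s hs => (hv p p.2 s hs).2.1)
    (fun p s hs => (hv p p.2 s hs).1.continuousAt.continuousWithinAt)
  have hdiff : DifferentiableOn ℂ (fun z => ∏' p : Nat.Primes, (1 + v p z))
      {s : ℂ | 3 / 4 < s.re} := by
    refine hloc.differentiableOn (Eventually.of_forall fun t => ?_) hK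
    have : DifferentiableOn ℂ (fun z => ∏ p ∈ t, (1 + v (p : Nat.Primes) z))
        {s : ℂ | 3 / 4 < s.re} := by
      refine DifferentiableOn.fun_finsetProd fun p _ => ?_
      intro s hs
      exact ((hv p p.2 s hs).1.const_add 1).differentiableWithinAt
    exact this
  intro s hs
  have hn : Summable fun p : Nat.Primes => ‖v p s‖ :=
    Summable.of_nonneg_of_le (fun _ => norm_nonneg _) (fun p => (hv p p.2 s hs).2.1) hu
  have hm : Multipliable fun p : Nat.Primes => 1 + v p s := multipliable_one_add_of_summable hn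
  refine ⟨hm, hdiff.differentiableAt (hK.mem_nhds hs),
    tprod_one_add_ne_zero_of_summable (fun p => (hv p p.2 s hs).2.2) hn, ?_⟩
  have ht := hm.hasProd
  have ht' : Tendsto (fun t : Finset Nat.Primes => ‖∏ p ∈ t, (1 + v (p : Nat.Primes) s)‖) atTop
      (𝓝 ‖∏' p : Nat.Primes, (1 + v p s)‖) := by
    have h0 : Tendsto (fun t : Finset Nat.Primes => ∏ p ∈ t, (1 + v (p : Nat.Primes) s)) atTop
      (𝓝 (∏' p : Nat.Primes, (1 + v p s))) := ht
    exact h0.norm
  refine le_of_tendsto ht' (Eventually.of_forall fun t => ?_)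
  have h1 := Finset.norm_prod_one_add_sub_one_le t (fun p : Nat.Primes => v p s)
  have h2 : ∑ p ∈ t, ‖v (p : Nat.Primes) s‖ ≤ ∑' p : Nat.Primes, M * ((p : ℕ) : ℝ) ^ (-(3 / 2) : ℝ) := by
    refine le_trans (Finset.sum_le_sum fun p _ => (hv p p.2 s hs).2.1) ?_
    exact hu.sum_le_tsum t fun p _ => le_trans (norm_nonneg _) (hv p p.2 s hs).2.1
  have h3 := Real.exp_le_exp.2 h2
  have h4 : ‖∏ p ∈ t, (1 + v (p : Nat.Primes) s)‖
      ≤ ‖∏ p ∈ t, (1 + v (p : Nat.Primes) s) - 1‖ + 1 := by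
    have := norm_add_le (∏ p ∈ t, (1 + v (p : Nat.Primes) s) - 1) 1
    rwa [sub_add_cancel, norm_one] at this
  linarith

end Pool.Agent.Y469.FK
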