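import Mathlib
import Pool.Agent.Y755.FK.Stm

/-!
Project FK (MP_5d10af_nt): the transform of the weight `(v (1 - v)) ^ 2`.
-/

set_option autoImplicit false

open Filter Topology MeasureTheory

namespace Pool.Agent.Y469.FK

open Pool.Agent.Y755.FK

/-- the weight as a complex polynomial -/
theorem wt_eq (v : ℝ) : (((v * (1 - v)) ^ 2 : ℝ) : ℂ) = ((v : ℂ) * (1 - v)) ^ 2 := by
  push_cast; ring

/-- two integrations by parts at once -/
theorem by_parts (w : ℂ) : w ^ 2 * Ph w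
    = ∫ v in (0 : ℝ)..1, (2 - 12 * (v : ℂ) + 12 * (v : ℂ) ^ 2) * Complex.exp (-w * v) := by
  have hder : ∀ v : ℝ, HasDerivAt (fun v : ℝ => ((2 * (v : ℂ) - 6 * (v : ℂ) ^ 2 + 4 * (v : ℂ) ^ 3)
      + w * ((v : ℂ) * (1 - v)) ^ 2) * Complex.exp (-w * v))
      ((2 - 12 * (v : ℂ) + 12 * (v : ℂ) ^ 2) * Complex.exp (-w * v)
        - w ^ 2 * ((((v * (1 - v)) ^ 2 : ℝ) : ℂ) * Complex.exp (-w * v))) v := by
    intro v
    have h0 : HasDerivAt (fun v : ℝ => (v : ℂ)) 1 v := Complex.ofRealCLM.hasDerivAt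
    have h1 : HasDerivAt (fun v : ℝ => Complex.exp (-w * v)) (Complex.exp (-w * v) * (-w * 1)) v :=
      (h0.const_mul (-w)).cexp
    have h2 : HasDerivAt (fun v : ℝ => (2 * (v : ℂ) - 6 * (v : ℂ) ^ 2 + 4 * (v : ℂ) ^ 3)
      + w * ((v : ℂ) * (1 - v)) ^ 2)
      ((2 * 1 - 6 * (2 * (v : ℂ) ^ 1 * 1) + 4 * (3 * (v : ℂ) ^ 2 * 1))
        + w * (2 * ((v : ℂ) * (1 - v)) ^ 1 * (1 * (1 - (v : ℂ)) + (v : ℂ) * (0 - 1)))) v := by
      refine HasDerivAt.add (HasDerivAt.add (HasDerivAt.sub (h0.const_mul 2) ?_) ?_) ?_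
      · have := (h0.pow 2).const_mul (6 : ℂ)
        simpa using this
      · have := (h0.pow 3).const_mul (4 : ℂ)
        simpa using this
      · have h3 : HasDerivAt (fun v : ℝ => (v : ℂ) * (1 - v))
            (1 * (1 - (v : ℂ)) + (v : ℂ) * (0 - 1)) v :=
          h0.mul ((hasDerivAt_const v (1 : ℂ)).sub h0)
        have := (h3.pow 2).const_mul w
        simpa using this
    refine (h2.mul h1).congr_deriv ?_
    rw [wt_eq]
    ring
  have hc1 : Continuous fun v : ℝ => (2 - 12 * (v : ℂ) + 12 * (v : ℂ) ^ 2) * Complex.exp (-w * v) := by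
    fun_prop
  have hc2 : Continuous fun v : ℝ => (((v * (1 - v)) ^ 2 : ℝ) : ℂ) * Complex.exp (-w * v) := by
    fun_prop
  have hc3 : Continuous fun v : ℝ =>
      w ^ 2 * ((((v * (1 - v)) ^ 2 : ℝ) : ℂ) * Complex.exp (-w * v)) := by
    fun_prop
  have h := intervalIntegral.integral_eq_sub_of_hasDerivAt (a := 0) (b := 1)
    (fun v _ => hder v) ((hc1.sub hc3).intervalIntegrable _ _)
  rw [intervalIntegral.integral_sub (hc1.intervalIntegrable _ _)
    (hc3.intervalIntegrable _ _),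
    intervalIntegral.integral_const_mul] at h
  have h' : (∫ v in (0 : ℝ)..1, (2 - 12 * (v : ℂ) + 12 * (v : ℂ) ^ 2) * Complex.exp (-w * v))
      - w ^ 2 * Ph w = 0 := by
    rw [Ph, h]
    push_cast
    ring
  linear_combination -h'

theorem norm_exp_le (w : ℂ) (hw1 : -1 ≤ w.re) (v : ℝ) (h0 : 0 ≤ v) (h1 : v ≤ 1) :
    ‖Complex.exp (-w * v)‖ ≤ Real.exp 1 := by
  rw [Complex.norm_exp]
  apply Real.exp_le_exp.2
  have : (-w * (v : ℂ)).re = -w.re * v := by simp
  rw [this]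
  nlinarith

theorem ph_le (w : ℂ) (hw1 : -1 ≤ w.re) : ‖Ph w‖ ≤ Real.exp 1 := by
  rw [Ph]
  have := intervalIntegral.norm_integral_le_of_norm_le_const (a := 0) (b := 1)
    (C := Real.exp 1) (f := fun v : ℝ => (((v * (1 - v)) ^ 2 : ℝ) : ℂ) * Complex.exp (-w * v)) ?_
  · simpa using this
  intro v hv
  rw [Set.uIoc_of_le zero_le_one] at hv
  rw [norm_mul, Complex.norm_real, Real.norm_eq_abs, abs_of_nonneg (sq_nonneg _)]
  have h1 : (v * (1 - v)) ^ 2 ≤ 1 := by
    have h2 : 0 ≤ v * (1 - v) := mul_nonneg hv.1.le (by linarith [hv.2])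
    have h3 : v * (1 - v) ≤ 1 := by nlinarith [hv.1, hv.2]
    exact pow_le_one₀ h2 h3
  have h4 := norm_exp_le w hw1 v hv.1.le hv.2
  calc (v * (1 - v)) ^ 2 * ‖Complex.exp (-w * v)‖ ≤ 1 * Real.exp 1 :=
        mul_le_mul h1 h4 (norm_nonneg _) zero_le_one
    _ = Real.exp 1 := one_mul _

theorem ph_le2 (w : ℂ) (hw1 : -1 ≤ w.re) : ‖w‖ ^ 2 * ‖Ph w‖ ≤ 26 * Real.exp 1 := by
  rw [← norm_pow, ← norm_mul, by_parts]
  have := intervalIntegral.norm_integral_le_of_norm_le_const (a := 0) (b := 1)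
    (C := 26 * Real.exp 1)
    (f := fun v : ℝ => (2 - 12 * (v : ℂ) + 12 * (v : ℂ) ^ 2) * Complex.exp (-w * v)) ?_
  · simpa using this
  intro v hv
  rw [Set.uIoc_of_le zero_le_one] at hv
  rw [norm_mul]
  have h1 : ‖(2 - 12 * (v : ℂ) + 12 * (v : ℂ) ^ 2)‖ ≤ 26 := by
    have e : (2 - 12 * (v : ℂ) + 12 * (v : ℂ) ^ 2) = ((2 - 12 * v + 12 * v ^ 2 : ℝ) : ℂ) := by
      push_cast; ring
    rw [e, Complex.norm_real, Real.norm_eq_abs, abs_le]
    constructor <;> nlinarith [hv.1, hv.2]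
  exact mul_le_mul h1 (norm_exp_le w hw1 v hv.1.le hv.2) (norm_nonneg _) (by norm_num)

theorem ph_diff : Differentiable ℂ Ph := by
  intro w0
  have hF : ∀ w : ℂ, Continuous fun v : ℝ =>
      (((v * (1 - v)) ^ 2 : ℝ) : ℂ) * Complex.exp (-w * v) := fun w => by fun_prop
  have hF' : Continuous fun v : ℝ =>
      (((v * (1 - v)) ^ 2 : ℝ) : ℂ) * (Complex.exp (-w0 * v) * (-v)) := by fun_prop
  have h := intervalIntegral.hasDerivAt_integral_of_dominated_loc_of_deriv_le (𝕜 := ℂ)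
    (μ := volume) (a := 0) (b := 1)
    (F := fun (w : ℂ) (v : ℝ) => (((v * (1 - v)) ^ 2 : ℝ) : ℂ) * Complex.exp (-w * v))
    (F' := fun (w : ℂ) (v : ℝ) => (((v * (1 - v)) ^ 2 : ℝ) : ℂ) * (Complex.exp (-w * v) * (-v)))
    (x₀ := w0) (s := Metric.ball w0 1) (bound := fun _ => Real.exp (‖w0‖ + 1))
    (Metric.ball_mem_nhds w0 one_pos)
    (Eventually.of_forall fun w => (hF w).aestronglyMeasurable)
    ((hF w0).intervalIntegrable _ _) hF'.aestronglyMeasurable
    (Eventually.of_forall fun v hv w hw => ?_)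
    intervalIntegrable_const
    (Eventually.of_forall fun v _ w _ => ?_)
  · exact h.2.differentiableAt
  · rw [Set.uIoc_of_le zero_le_one] at hv
    rw [norm_mul, norm_mul, norm_neg, Complex.norm_real, Complex.norm_real, Real.norm_eq_abs,
      Real.norm_eq_abs, abs_of_nonneg (sq_nonneg _), abs_of_pos hv.1]
    have h1 : (v * (1 - v)) ^ 2 ≤ 1 := by
      have h2 : 0 ≤ v * (1 - v) := mul_nonneg hv.1.le (by linarith [hv.2])
      have h3 : v * (1 - v) ≤ 1 := by nlinarith [hv.1, hv.2]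
      exact pow_le_one₀ h2 h3
    have h2 : ‖Complex.exp (-w * v)‖ ≤ Real.exp (‖w0‖ + 1) := by
      rw [Complex.norm_exp]
      apply Real.exp_le_exp.2
      have e : (-w * (v : ℂ)).re = -w.re * v := by simp
      rw [e]
      have h3 : -w.re ≤ ‖w‖ := le_trans (neg_le_abs _) (Complex.abs_re_le_norm w)
      have h4 : ‖w‖ ≤ ‖w0‖ + 1 := by
        have h5 := norm_add_le (w - w0) w0
        rw [sub_add_cancel] at h5
        have h6 : ‖w - w0‖ < 1 := by simpa [dist_eq_norm] using hw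
        linarith
      have h7 : 0 ≤ ‖w0‖ + 1 := by positivity
      have h8 : -w.re * v ≤ (‖w0‖ + 1) * v := mul_le_mul_of_nonneg_right (by linarith) hv.1.le
      have h9 : (‖w0‖ + 1) * v ≤ (‖w0‖ + 1) * 1 := mul_le_mul_of_nonneg_left hv.2 h7
      linarith
    calc (v * (1 - v)) ^ 2 * (‖Complex.exp (-w * v)‖ * v)
        ≤ 1 * (Real.exp (‖w0‖ + 1) * 1) := by
          refine mul_le_mul h1 ?_ (mul_nonneg (norm_nonneg _) hv.1.le) zero_le_one
          exact mul_le_mul h2 hv.2 hv.1.le (by positivity)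
      _ = Real.exp (‖w0‖ + 1) := by ring
  · have h1 : HasDerivAt (fun w : ℂ => -w * (v : ℂ)) (-1 * (v : ℂ)) w :=
      (hasDerivAt_id w).neg.mul_const _
    have h2 := h1.cexp.const_mul (((v * (1 - v)) ^ 2 : ℝ) : ℂ)
    refine h2.congr_deriv ?_
    ring

theorem t_PHB : S_PHB := by
  refine ⟨⟨27 * Real.exp 1, fun w h1 _ => ?_⟩, ph_diff, fun x => ?_, fun x => ?_⟩
  · rw [le_div_iff₀ (by positivity)]
    have a1 := ph_le w h1
    have a2 := ph_le2 w h1
    nlinarith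
  · rw [Ph, Pr, ← intervalIntegral.integral_ofReal]
    refine intervalIntegral.integral_congr fun v _ => ?_
    push_cast
    rfl
  · rw [Pr]
    have hc : Continuous fun v : ℝ => (v * (1 - v)) ^ 2 * Real.exp (-x * v) := by fun_prop
    refine intervalIntegral.intervalIntegral_pos_of_pos_on (hc.intervalIntegrable _ _) ?_ one_pos
    intro v hv
    have h1 : 0 < v * (1 - v) := mul_pos hv.1 (by linarith [hv.2])
    positivity

end Pool.Agent.Y469.FK
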