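import Mathlib
import Pool.Agent.Y755.FK.Stm

/-!
Project FK (MP_5d10af_nt): decay of the local sums `tt`.
-/

set_option autoImplicit false

open Finset

open scoped Classical

namespace Pool.Agent.Y469.FK

open Pool.Agent.Y755.FK

theorem abs_J_le (a : ℤ) (n : ℕ) : |J a n| ≤ 1 := by
  rw [J]
  rcases jacobiSym.trichotomy a n with h | h | h <;> rw [h] <;> norm_num

theorem abs_phi_le (v : ℝ) : |φ v| ≤ 1 := by
  rw [φ]
  split_ifs with h
  · have h2 : 0 ≤ v * (1 - v) := mul_nonneg h.1 (by linarith [h.2])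
    have h3 : v * (1 - v) ≤ 1 := by nlinarith [h.1, h.2]
    rw [abs_of_nonneg (sq_nonneg _)]
    exact pow_le_one₀ h2 h3
  · norm_num

theorem LR_bdd (c : ℕ → ℝ) (u u0 : ℝ) (h : u ≤ u0) :
    |LR c u| ≤ ∑ k ∈ Icc 1 ⌊Real.exp u0⌋₊, |c k / k| := by
  rw [LR]
  refine le_trans (abs_sum_le_sum_abs _ _) ?_
  refine le_trans (sum_le_sum (g := fun k => |c k / k|) fun k _ => ?_) ?_
  · rw [abs_mul]
    exact mul_le_of_le_one_right (abs_nonneg _) (abs_phi_le _)
  · refine sum_le_sum_of_subset_of_nonneg ?_ fun _ _ _ => abs_nonneg _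
    exact Icc_subset_Icc le_rfl (Nat.floor_le_floor (Real.exp_le_exp.2 h))

theorem mem_KK {e : ℤ} : e ∈ KK ↔ e = 1 ∨ e = -1 ∨ e = 2 ∨ e = -2 := by
  simp [KK]

theorem mul_mem_KK {e : ℤ} (he : e ∈ KK) {y : ℕ} (_ : Odd y) :
    e * jacobiSym (-1) y ∈ KK := by
  have h1 : jacobiSym (-1) y = 1 ∨ jacobiSym (-1) y = -1 := by
    rcases jacobiSym.trichotomy (-1) y with h | h | h
    · exfalso
      have h2 : jacobiSym (-1) y ≠ 0 := by
        exact jacobiSym.ne_zero (by simp)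
      exact h2 h
    · exact Or.inl h
    · exact Or.inr h
  rw [mem_KK] at he ⊢
  rcases h1 with h | h <;> rw [h] <;> rcases he with rfl | rfl | rfl | rfl <;> norm_num

theorem t_TDEC : S_GRP → S_TAU → S_TDEC := by
  intro hG hT e f A he hf
  obtain ⟨C0, K, hC0, hG⟩ := hG
  set B : ℕ := 8 * (A + K) with hB
  obtain ⟨C1, hT⟩ := hT (A + B)
  set u0 : ℝ := 8 ^ (B + 1) * (B + 1).factorial with hu0
  have hu01 : 1 ≤ u0 := by
    have h1 : (1 : ℝ) ≤ 8 ^ (B + 1) := one_le_pow₀ (by norm_num)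
    have h2 : (1 : ℝ) ≤ (B + 1).factorial := by exact_mod_cast Nat.succ_le_of_lt (Nat.factorial_pos _)
    exact one_le_mul_of_one_le_of_one_le h1 h2
  set S0 : ℝ := ∑ k ∈ Icc 1 ⌊Real.exp u0⌋₊, |we e f k / k| with hS0
  have hS00 : 0 ≤ S0 := sum_nonneg fun _ _ => abs_nonneg _
  refine ⟨S0 * u0 ^ A + (C0 * 2 ^ (K + 1) + 2 * |C1|), fun u hu => ?_⟩
  have hu' : 0 < u := by linarith
  have huA : 0 < u ^ A := pow_pos hu' A
  have hB0 : 0 ≤ C0 * 2 ^ (K + 1) + 2 * |C1| := by positivity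
  rcases le_or_gt u u0 with hle | hgt
  · have h1 : |tt e f u| ≤ S0 := LR_bdd (we e f) u u0 hle
    rw [le_div_iff₀ huA]
    have h2 : |tt e f u| * u ^ A ≤ S0 * u0 ^ A :=
      mul_le_mul h1 (pow_le_pow_left₀ hu'.le hle A) huA.le hS00
    linarith
  -- large u
  have huB1 : 1 ≤ u ^ B := one_le_pow₀ hu
  have huB : u ^ B ≤ Real.exp (u / 8) := by
    have h1 := Real.pow_div_factorial_le_exp (u / 8) (by positivity) (B + 1)
    refine le_trans ?_ h1
    have hf0 : (0 : ℝ) < (B + 1).factorial := by exact_mod_cast Nat.factorial_pos _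
    rw [le_div_iff₀ hf0, div_pow, le_div_iff₀ (by positivity)]
    have h2 : u ^ B * (B + 1).factorial * 8 ^ (B + 1) = u ^ B * u0 := by rw [hu0]; ring
    rw [h2, pow_succ]
    exact mul_le_mul_of_nonneg_left hgt.le (by positivity)
  set z : ℕ := ⌊u ^ B⌋₊ with hz
  have hz1 : 1 ≤ z := by
    rw [hz]
    exact Nat.floor_pos.2 huB1
  have hz1' : (1 : ℝ) ≤ z := by exact_mod_cast hz1
  have hzle : (z : ℝ) ≤ u ^ B := Nat.floor_le (by positivity)
  have hzge : u ^ B / 2 ≤ (z : ℝ) := by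
    have h1 : u ^ B < (z : ℝ) + 1 := Nat.lt_floor_add_one _
    linarith
  have hmain := hG u z e f hu hz1 (le_trans hzle huB) he hf
  -- error term
  have herr : C0 * (1 + u) ^ K * (z : ℝ) ^ (-(1 / 8) : ℝ) ≤ C0 * 2 ^ (K + 1) / u ^ A := by
    have h1 : (z : ℝ) ^ (-(1 / 8) : ℝ) ≤ 2 / u ^ (A + K) := by
      have h2 : (z : ℝ) ^ (-(1 / 8) : ℝ) ≤ (u ^ B / 2) ^ (-(1 / 8) : ℝ) :=
        Real.rpow_le_rpow_of_nonpos (by positivity) hzge (by norm_num)
      have h3 : (u ^ B / 2) ^ (-(1 / 8) : ℝ) = 2 ^ (1 / 8 : ℝ) / u ^ (A + K) := by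
        rw [Real.div_rpow (by positivity) (by norm_num), hB, ← Real.rpow_natCast u (8 * (A + K)),
          ← Real.rpow_mul hu'.le, ← Real.rpow_natCast u (A + K)]
        have e1 : (((8 * (A + K) : ℕ) : ℝ) * -(1 / 8)) = -((A + K : ℕ) : ℝ) := by
          push_cast; ring
        rw [e1, Real.rpow_neg hu'.le, Real.rpow_neg (by norm_num : (0 : ℝ) ≤ 2)]
        field_simp
      rw [h3] at h2
      refine le_trans h2 ?_
      refine div_le_div_of_nonneg_right ?_ (by positivity)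
      calc (2 : ℝ) ^ (1 / 8 : ℝ) ≤ 2 ^ (1 : ℝ) :=
            Real.rpow_le_rpow_of_exponent_le (by norm_num) (by norm_num)
        _ = 2 := Real.rpow_one 2
    have h4 : (1 + u) ^ K ≤ (2 * u) ^ K := pow_le_pow_left₀ (by positivity) (by linarith) K
    have h5 : C0 * (1 + u) ^ K * (z : ℝ) ^ (-(1 / 8) : ℝ) ≤ C0 * (2 * u) ^ K * (2 / u ^ (A + K)) :=
      mul_le_mul (mul_le_mul_of_nonneg_left h4 hC0) h1 (by positivity) (by positivity)
    refine le_trans h5 (le_of_eq ?_)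
    rw [mul_pow, pow_add, pow_succ]
    field_simp
  -- the sums
  have hterm : ∀ d : ℕ, ∀ κ : ℤ, κ ∈ KK → osf d → d ≤ z → ¬ (d = 1 ∧ κ = 1) →
      |ta d (κ * d) u| ≤ |C1| / u ^ (A + B) := by
    intro d κ hκ hd hdz hne
    have h1 : (d : ℝ) ≤ u ^ (A + B) := by
      have h2 : (d : ℝ) ≤ z := by exact_mod_cast hdz
      refine le_trans h2 (le_trans hzle ?_)
      exact pow_le_pow_right₀ hu (by omega)
    refine le_trans (hT u d κ hu hd hκ hne h1) ?_
    exact div_le_div_of_nonneg_right (le_abs_self _) (by positivity)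
  have hsum : ∀ (S : Finset ℕ) (g : ℕ → ℝ), S ⊆ Icc 1 z →
      (∀ x ∈ S, |g x| ≤ |C1| / u ^ (A + B)) → |∑ x ∈ S, g x| ≤ |C1| / u ^ A := by
    intro S g hS hg
    refine le_trans (abs_sum_le_sum_abs _ _) ?_
    refine le_trans (sum_le_sum hg) ?_
    rw [sum_const, nsmul_eq_mul]
    have h1 : (S.card : ℝ) ≤ u ^ B := by
      have h2 : S.card ≤ z := by
        have := card_le_card hS
        rwa [Nat.card_Icc, Nat.add_sub_cancel] at this
      have h3 : (S.card : ℝ) ≤ z := by exact_mod_cast h2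
      exact le_trans h3 hzle
    refine le_trans (mul_le_mul_of_nonneg_right h1 (by positivity)) (le_of_eq ?_)
    rw [pow_add]
    field_simp
  set S1 := ∑ x ∈ (Icc 1 z).filter (fun x => osf x ∧ ¬ (x = 1 ∧ f = 1)),
        J e x * ta x (f * x) u with hS1
  set S2 := ∑ y ∈ (Icc 1 z).filter (fun y => osf y ∧ ¬ (y = 1 ∧ e = 1)),
        J f y * ta y (e * jacobiSym (-1) y * y) u with hS2
  have b1 : |S1| ≤ |C1| / u ^ A := by
    rw [hS1]
    refine hsum _ _ (filter_subset _ _) fun x hx => ?_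
    rw [mem_filter, mem_Icc] at hx
    rw [abs_mul]
    exact le_trans (mul_le_of_le_one_left (abs_nonneg _) (abs_J_le _ _))
      (hterm x f hf hx.2.1 hx.1.2 hx.2.2)
  have b2 : |S2| ≤ |C1| / u ^ A := by
    rw [hS2]
    refine hsum _ _ (filter_subset _ _) fun y hy => ?_
    rw [mem_filter, mem_Icc] at hy
    rw [abs_mul]
    refine le_trans (mul_le_of_le_one_left (abs_nonneg _) (abs_J_le _ _))
      (hterm y (e * jacobiSym (-1) y) (mul_mem_KK he hy.2.1.1) hy.2.1 hy.1.2 ?_)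
    rintro ⟨rfl, h⟩
    rw [jacobiSym.one_right, mul_one] at h
    exact hy.2.2 ⟨rfl, h⟩
  have h1 : |tt e f u| ≤ |tt e f u - S1 - S2| + |S1| + |S2| := by
    have e1 : tt e f u = (tt e f u - S1 - S2) + S1 + S2 := by ring
    conv_lhs => rw [e1]
    exact le_trans (abs_add_le _ _) (add_le_add_left (abs_add_le _ _) _)
  have h2 : |tt e f u| ≤ (C0 * 2 ^ (K + 1) + 2 * |C1|) / u ^ A := by
    have e2 : (C0 * 2 ^ (K + 1) + 2 * |C1|) / u ^ A
        = C0 * 2 ^ (K + 1) / u ^ A + |C1| / u ^ A + |C1| / u ^ A := by ring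
    rw [e2]
    have h3 : |tt e f u - S1 - S2| ≤ C0 * 2 ^ (K + 1) / u ^ A := le_trans hmain herr
    linarith
  refine le_trans h2 ?_
  refine div_le_div_of_nonneg_right ?_ huA.le
  have : 0 ≤ S0 * u0 ^ A := by positivity
  linarith

end Pool.Agent.Y469.FK
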